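import Pool.Agent.Lib.MP_32aa7d_gt.Decomp

/-!
Problem `MP_32aa7d_gt`, Q1, answered in the affirmative: every sequential (Hausdorff) rectifiable
space with a point-countable k-network is paracompact.

Outline of the proof. Write `p`, `q` for the continuous operations attached to a rectification,
`p x (q x y) = y = q x (p x y)`, `p e y = y`, `p x e = x`, `q x x = e`.

* If the point `e` has the diagonal property `AlphaFour`, the space is Fréchet, then first
  countable at `e` (closing-off argument with the k-network), hence pseudometrizable.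
* Otherwise there is a fan at `e`, and then the relatively sequentially compact members of the
  k-network still capture all convergent sequences. A recursion of length `ω₁` shows that countably
  many translates of such members meet each sequence converging to `e`; the sub-rectifiable sets
  generated by this barrier and a countable set are clopen and Lindelöf, and the whole space is a
  disjoint union of open Lindelöf sets.
-/

namespace Pool.Agent.Results.MP_32aa7d_gt.SequentialRectifiableParacompact

open Pool.Agent.MP_32aa7d_gt Set Filter Topology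

universe u

/-- Every sequential Hausdorff rectifiable space with a point-countable k-network is
paracompact. -/
theorem result (G : Type u) [TopologicalSpace G] [T2Space G] [SequentialSpace G]
    (hG : Rectifiable G) (hP : ∃ P : Set (Set G), IsKNetwork P ∧ PointCountable P) :
    ParacompactSpace G := by
  obtain ⟨o⟩ := hG.exists_ops
  have hreg : RegularSpace G := o.regularSpace
  obtain ⟨P₀, hK₀, hP₀⟩ := hP
  -- close under finite intersections
  let P : Set (Set G) := {A | ∃ F : Set (Set G), F.Finite ∧ F ⊆ P₀ ∧ F.Nonempty ∧ A = ⋂₀ F}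
  have hP₀P : P₀ ⊆ P := fun A hA => ⟨{A}, finite_singleton A, by simpa using hA,
    singleton_nonempty A, by simp⟩
  have hK : IsKNetwork P := by
    intro K U h1 h2 h3
    obtain ⟨F, hF1, hF2, hF3, hF4⟩ := hK₀ K U h1 h2 h3
    exact ⟨F, hF1, hF2.trans hP₀P, hF3, hF4⟩
  have hPc : PointCountable P := by
    intro x
    have h1 : {F : Set (Set G) | F.Finite ∧ F ⊆ {A | A ∈ P₀ ∧ x ∈ A}}.Countable :=
      countable_ofPred_finite_subset (hP₀ x)
    refine (h1.image fun F => ⋂₀ F).mono ?_
    rintro A ⟨⟨F, hF1, hF2, -, rfl⟩, hx⟩
    exact ⟨F, ⟨hF1, fun B hB => ⟨hF2 hB, hx B hB⟩⟩, rfl⟩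
  have hinter : ∀ A ∈ P, ∀ B ∈ P, A ∩ B ∈ P := by
    rintro A ⟨F, hF1, hF2, hF3, rfl⟩ B ⟨F', hF1', hF2', -, rfl⟩
    exact ⟨F ∪ F', hF1.union hF1', union_subset hF2 hF2', hF3.mono subset_union_left,
      (sInter_union F F').symm⟩
  by_cases h4 : AlphaFour o.e
  · -- metrizable case
    have h5 : (𝓝 o.e).IsCountablyGenerated :=
      isCountablyGenerated_of_alphaFour hPc hK.captures o.e h4 fun A hA => o.frechet h4 A o.e hA
    have h6 : TopologicalSpace.PseudoMetrizableSpace G := o.pseudoMetrizableSpace h5
    let _ := TopologicalSpace.pseudoMetrizableSpacePseudoMetric G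
    infer_instance
  · -- the case with a fan
    obtain ⟨x, hx⟩ := exists_fan hPc hK.captures h4
    have hC := o.rsc_captures hPc hK hinter hx
    have hPR : PointCountable {A | A ∈ P ∧ RSC A} := hPc.mono fun A hA => hA.1
    obtain ⟨𝒯, h1, h2, h3⟩ := o.exists_barrier hPR hC fun A hA => hA.2
    have hT : o.IsBarrier (⋃₀ 𝒯) := h3
    have hT2 : SRSC (⋃₀ 𝒯) := ⟨𝒯, h1, h2, Subset.rfl⟩
    have h5 := o.nice_gen hT hT2 hPR hC univ
    have h6 : o.gen (⋃₀ 𝒯 ∪ univ) = univ := by
      rw [union_univ]
      exact univ_subset_iff.1 (o.subset_gen univ)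
    rw [h6] at h5
    exact h5.paracompactSpace

end Pool.Agent.Results.MP_32aa7d_gt.SequentialRectifiableParacompact
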